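import Mathlib
import Pool.Agent.Helper479_cactus.Main

set_option autoImplicit false

namespace Pool.Agent.Helper479Crown

open SimpleGraph Pool.Agent.Helper479Cactus

variable {V : Type} {k : ℕ}

theorem walk_of_conn (G : SimpleGraph V) {S : Set V} (h : (G.induce S).Connected) {x y : V}
    (hx : x ∈ S) (hy : y ∈ S) : ∃ p : G.Walk x y, ∀ v ∈ p.support, v ∈ S := by
  have key : ∀ (a b : S) (p : (G.induce S).Walk a b), ∃ q : G.Walk a.1 b.1,
      ∀ v ∈ q.support, v ∈ S := by
    intro a b p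
    induction p with
    | nil =>
      rename_i u
      refine ⟨Walk.nil, ?_⟩
      intro v hv
      simp only [Walk.support_nil, List.mem_singleton] at hv
      rw [hv]; exact u.2
    | cons h p ih =>
      rename_i u w z
      obtain ⟨q, hq⟩ := ih
      have h' : G.Adj u.1 w.1 := h
      refine ⟨Walk.cons h' q, ?_⟩
      intro v hv
      rw [Walk.support_cons] at hv
      rcases List.mem_cons.mp hv with rfl | hv
      · exact u.2
      · exact hq v hv
  obtain ⟨p⟩ := h.preconnected ⟨x, hx⟩ ⟨y, hy⟩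
  exact key _ _ p

/-- Nonadjacent transversal vertices: each has a neighbor in the class of the other. -/
theorem nbr (G : SimpleGraph V) (c : V → Fin k) (t : Fin k → V)
    (hc : ∀ u v, G.Adj u v → c u ≠ c v) (ht : ∀ i, c (t i) = i) (i j : Fin k) (hij : i ≠ j)
    (hK : (G.induce {v | c v = i ∨ c v = j}).Connected) : ∃ w, c w = i ∧ G.Adj (t j) w := by
  obtain ⟨p, hp⟩ := walk_of_conn G hK (x := t j) (y := t i) (Or.inr (ht j)) (Or.inl (ht i))
  have hne : t j ≠ t i := by
    intro h1
    apply hij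
    rw [← ht i, ← h1, ht j]
  generalize t i = y at p hne
  cases p with
  | nil => exact absurd rfl hne
  | cons h q =>
    rename_i w
    rcases hp w (by simp) with hw | hw
    · exact ⟨w, hw, h⟩
    · exact absurd ((ht j).trans hw.symm) (hc _ _ h)

/-- The bags obtained from a set `C` of colors matched into the rest. -/
theorem crown (G : SimpleGraph V) (c : V → Fin k) (t : Fin k → V)
    (hc : ∀ u v, G.Adj u v → c u ≠ c v) (ht : ∀ i, c (t i) = i)
    (hK : ∀ i j, i ≠ j → ¬ G.Adj (t i) (t j) → (G.induce {v | c v = i ∨ c v = j}).Connected)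
    (C : Finset (Fin k)) (μ : Fin k → Fin k) (hμC : ∀ i ∈ C, μ i ∉ C)
    (hμ : ∀ i ∈ C, ∀ j ∈ C, μ i = μ j → i = j)
    (hiso : ∀ i ∈ C, ∀ j, j ∉ C → j ≠ μ i → G.Adj (t (μ i)) (t j))
    (hcut : ∀ i ∈ C, (G.induce {v | (c v = i ∨ c v = μ i) ∧ v ≠ t (μ i)}).Connected)
    (F : SimpleGraph (Fin k)) (hF : ∀ i j, F.Adj i j ↔ i ≠ j ∧ ¬ G.Adj (t i) (t j))
    (hcyc : ∀ (i : Fin k) (p : F.Walk i i), p.IsCycle → (∀ x ∈ p.support, x ∉ C) →
      p.length ≤ 3) :
    ∃ B : Fin k → Set V,
      (∀ i : Fin k, (B i).Nonempty) ∧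
      (∀ i : Fin k, (G.induce (B i)).Connected) ∧
      (∀ i j : Fin k, i ≠ j → Disjoint (B i) (B j)) ∧
      (∀ i j : Fin k, i ≠ j → ∃ u ∈ B i, ∃ v ∈ B j, G.Adj u v) ∧
      (∀ i : Fin k, ∃! j : Fin k, t j ∈ B i) := by
  classical
  have hinj : ∀ i j, t i = t j → i = j := by
    intro i j h
    rw [← ht i, h, ht j]
  let I : Finset (Fin k) := (Finset.univ \ C) \ C.image μ
  have hI : ∀ i, i ∈ I ↔ i ∉ C ∧ ∀ j ∈ C, μ j ≠ i := by
    intro i
    simp [I]
  let H : SimpleGraph (Fin k) :=
    { Adj := fun i j => F.Adj i j ∧ i ∉ C ∧ j ∉ C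
      symm := ⟨fun i j h => ⟨h.1.symm, h.2.2, h.2.1⟩⟩
      loopless := ⟨fun i h => F.irrefl h.1⟩ }
  have hHF : H ≤ F := fun i j h => h.1
  have hHC : ∀ (i j : Fin k) (p : H.Walk i j), i ∉ C → ∀ x ∈ p.support, x ∉ C := by
    intro i j p
    induction p with
    | nil =>
      intro h x hx
      simp only [Walk.support_nil, List.mem_singleton] at hx
      rw [hx]; exact h
    | cons h p ih =>
      intro hi x hx
      rw [Walk.support_cons] at hx
      rcases List.mem_cons.mp hx with rfl | hx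
      · exact hi
      · exact ih h.2.2 x hx
  have hHcyc : ∀ (i : Fin k) (p : H.Walk i i), p.IsCycle → p.length ≤ 3 := by
    intro i p hp
    have h1 : (p.mapLe hHF).IsCycle := hp.mapLe hHF
    have h2 := hcyc i (p.mapLe hHF) h1 (by
      intro x hx
      have hx' : x ∈ p.support := by
        rw [Walk.support_mapLe_eq_support] at hx
        exact hx
      refine hHC i i p ?_ x hx'
      cases p with
      | nil => exact absurd hp Walk.not_isCycle_nil
      | cons h q => exact h.2.1)
    rw [Walk.length_mapLe] at h2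
    exact h2
  have hHw : ∀ i j, H.Adj i j → ∃ p : G.Walk (t i) (t j), ∀ v ∈ p.support, c v = i ∨ c v = j := by
    intro i j hij
    obtain ⟨hne, hna⟩ := (hF i j).mp hij.1
    have hcon := hK i j hne hna
    exact walk_of_conn G hcon (Or.inl (ht i)) (Or.inr (ht j))
  obtain ⟨D, hD1, hD2, hD3, hD4, hD5⟩ := main G H c t hHcyc hHw I (fun i => {t i})
    (fun i _ => singleton_conn G (t i)) (fun i _ => rfl)
    (fun i _ j _ hij => by
      rw [Set.disjoint_singleton]
      exact fun h => hij (hinj i j h))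
    (fun i _ j _ hij v hv => by
      rw [Set.mem_singleton_iff] at hv
      rw [hv, ht i]
      exact hij)
  have hDc : ∀ i ∈ I, ∀ v ∈ D i, c v ∈ I := by
    intro i hi v hv
    by_cases h : v ∈ ({t i} : Set V)
    · rw [Set.mem_singleton_iff] at h
      rw [h, ht i]; exact hi
    · exact hD4 i hi v hv h
  let B : Fin k → Set V := fun i =>
    if i ∈ C then {v | (c v = i ∨ c v = μ i) ∧ v ≠ t (μ i)} else if i ∈ I then D i else {t i}
  have hBC : ∀ i, i ∈ C → B i = {v | (c v = i ∨ c v = μ i) ∧ v ≠ t (μ i)} := by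
    intro i hi
    simp [B, hi]
  have hBI : ∀ i, i ∈ I → B i = D i := by
    intro i hi
    have := ((hI i).mp hi).1
    simp only [B, this, if_false, hi, if_true]
  have hBO : ∀ i, i ∉ C → i ∉ I → B i = {t i} := by
    intro i h1 h2
    simp only [B, h1, if_false, h2]
  have hμI : ∀ i, i ∉ C → i ∉ I → ∃ j ∈ C, μ j = i := by
    intro i h1 h2
    rw [hI] at h2
    push Not at h2
    exact h2 h1
  -- a color vertex of class i lies in the bag of i
  have hXB : ∀ i ∈ C, ∀ v, c v = i → v ∈ B i := by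
    intro i hi v hv
    rw [hBC i hi]
    refine ⟨Or.inl hv, ?_⟩
    intro hvt
    rw [hvt, ht] at hv
    exact hμC i hi (by rw [hv]; exact hi)
  have hmem : ∀ i, t i ∈ B i := by
    intro i
    by_cases h1 : i ∈ C
    · exact hXB i h1 _ (ht i)
    · by_cases h2 : i ∈ I
      · rw [hBI i h2]
        exact hD2 i h2 rfl
      · rw [hBO i h1 h2]; rfl
  have hconn : ∀ i : Fin k, (G.induce (B i)).Connected := by
    intro i
    by_cases h1 : i ∈ C
    · rw [hBC i h1]; exact hcut i h1
    · by_cases h2 : i ∈ I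
      · rw [hBI i h2]; exact hD1 i h2
      · rw [hBO i h1 h2]; exact singleton_conn G (t i)
  have hdis1 : ∀ i j : Fin k, i ∈ C → i ≠ j → ∀ v ∈ B i, v ∉ B j := by
    intro i j hi hij v hv hv2
    rw [hBC i hi] at hv
    obtain ⟨hv, hvt⟩ := hv
    by_cases h1 : j ∈ C
    · rw [hBC j h1] at hv2
      obtain ⟨hv2, -⟩ := hv2
      rcases hv with hv | hv <;> rcases hv2 with hv2 | hv2
      · exact hij (hv.symm.trans hv2)
      · exact hμC j h1 (by rw [← hv2, hv]; exact hi)
      · exact hμC i hi (by rw [← hv, hv2]; exact h1)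
      · exact hij (hμ i hi j h1 (hv.symm.trans hv2))
    · by_cases h2 : j ∈ I
      · rw [hBI j h2] at hv2
        have h3 := (hI _).mp (hDc j h2 v hv2)
        rcases hv with hv | hv
        · exact h3.1 (by rw [hv]; exact hi)
        · exact h3.2 i hi hv.symm
      · rw [hBO j h1 h2, Set.mem_singleton_iff] at hv2
        subst hv2
        rw [ht] at hv
        rcases hv with hv | hv
        · exact hij hv.symm
        · exact hvt (by rw [← hv])
  have hdis : ∀ i j : Fin k, i ≠ j → Disjoint (B i) (B j) := by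
    intro i j hij
    rw [Set.disjoint_left]
    intro v hv hv2
    by_cases h1 : i ∈ C
    · exact hdis1 i j h1 hij v hv hv2
    by_cases h2 : j ∈ C
    · exact hdis1 j i h2 hij.symm v hv2 hv
    by_cases h3 : i ∈ I
    · by_cases h4 : j ∈ I
      · rw [hBI i h3] at hv
        rw [hBI j h4] at hv2
        exact Set.disjoint_left.mp (hD3 i h3 j h4 hij) hv hv2
      · rw [hBI i h3] at hv
        rw [hBO j h2 h4, Set.mem_singleton_iff] at hv2
        have := hDc i h3 v hv
        rw [hv2, ht] at this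
        exact h4 this
    · rw [hBO i h1 h3, Set.mem_singleton_iff] at hv
      by_cases h4 : j ∈ I
      · rw [hBI j h4] at hv2
        have := hDc j h4 v hv2
        rw [hv, ht] at this
        exact h3 this
      · rw [hBO j h2 h4, Set.mem_singleton_iff] at hv2
        exact hij (hinj i j (hv.symm.trans hv2))
  have hadj1 : ∀ i j : Fin k, i ∈ C → i ≠ j → ∃ u ∈ B i, ∃ v ∈ B j, G.Adj u v := by
    intro i j hi hij
    by_cases h : G.Adj (t i) (t j)
    · exact ⟨t i, hmem i, t j, hmem j, h⟩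
    · obtain ⟨w, hw, hadj⟩ := nbr G c t hc ht i j hij (hK i j hij h)
      exact ⟨w, hXB i hi w hw, t j, hmem j, hadj.symm⟩
  have hadj : ∀ i j : Fin k, i ≠ j → ∃ u ∈ B i, ∃ v ∈ B j, G.Adj u v := by
    intro i j hij
    by_cases h1 : i ∈ C
    · exact hadj1 i j h1 hij
    by_cases h2 : j ∈ C
    · obtain ⟨u, hu, v, hv, h⟩ := hadj1 j i h2 hij.symm
      exact ⟨v, hv, u, hu, h.symm⟩
    by_cases h : G.Adj (t i) (t j)
    · exact ⟨t i, hmem i, t j, hmem j, h⟩
    by_cases h3 : i ∈ I
    · by_cases h4 : j ∈ I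
      · rw [hBI i h3, hBI j h4]
        exact hD5 i h3 j h4 ⟨(hF i j).mpr ⟨hij, h⟩, h1, h2⟩
      · obtain ⟨l, hl, rfl⟩ := hμI j h2 h4
        exact absurd (hiso l hl i h1 hij).symm h
    · obtain ⟨l, hl, rfl⟩ := hμI i h1 h3
      exact absurd (hiso l hl j h2 hij.symm) h
  refine ⟨B, fun i => ⟨t i, hmem i⟩, hconn, hdis, hadj, ?_⟩
  intro i
  refine ⟨i, hmem i, ?_⟩
  intro j hj
  by_contra hne
  exact Set.disjoint_left.mp (hdis j i hne) (hmem j) hj

end Pool.Agent.Helper479Crown
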