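import Mathlib
import Pool.Agent.Helper479_crown.Main

set_option autoImplicit false

namespace Pool.Agent.Helper479Crown

open SimpleGraph Pool.Agent.Helper479Cactus

variable {V : Type} {k : ℕ}

/-- One side of a minimum vertex cover can be matched out of the cover. -/
theorem side (F : SimpleGraph (Fin k)) (S : Fin k → Prop)
    (hS : ∀ i j, F.Adj i j → S i → ¬ S j) (C : Finset (Fin k))
    (hC : ∀ i j, F.Adj i j → i ∈ C ∨ j ∈ C)
    (hmin : ∀ D : Finset (Fin k), (∀ i j, F.Adj i j → i ∈ D ∨ j ∈ D) → C.card ≤ D.card) :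
    ∃ f : {i // i ∈ C ∧ S i} → Fin k, Function.Injective f ∧
      ∀ x, F.Adj x.1 (f x) ∧ f x ∉ C := by
  classical
  let N : {i // i ∈ C ∧ S i} → Finset (Fin k) :=
    fun x => Finset.univ.filter (fun j => F.Adj x.1 j ∧ j ∉ C)
  have hN : ∀ x j, j ∈ N x ↔ F.Adj x.1 j ∧ j ∉ C := by
    intro x j
    simp [N]
  have hall : ∀ A : Finset {i // i ∈ C ∧ S i}, A.card ≤ (A.biUnion N).card := by
    intro A
    let A' : Finset (Fin k) := A.image Subtype.val
    have hA' : A'.card = A.card := Finset.card_image_of_injective _ Subtype.val_injective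
    have hA'C : A' ⊆ C := by
      intro i hi
      obtain ⟨x, -, rfl⟩ := Finset.mem_image.mp hi
      exact x.2.1
    have hcov : ∀ i j, F.Adj i j → i ∈ (C \ A') ∪ A.biUnion N ∨ j ∈ (C \ A') ∪ A.biUnion N := by
      have h1 : ∀ i j, F.Adj i j → i ∈ C →
          i ∈ (C \ A') ∪ A.biUnion N ∨ j ∈ (C \ A') ∪ A.biUnion N := by
        intro i j hij hi
        by_cases hiA : i ∈ A'
        · right
          obtain ⟨x, hx, rfl⟩ := Finset.mem_image.mp hiA
          by_cases hj : j ∈ C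
          · have hjA : j ∉ A' := by
              intro h
              obtain ⟨y, hy, rfl⟩ := Finset.mem_image.mp h
              exact hS _ _ hij x.2.2 y.2.2
            exact Finset.mem_union_left _ (Finset.mem_sdiff.mpr ⟨hj, hjA⟩)
          · exact Finset.mem_union_right _ (Finset.mem_biUnion.mpr ⟨x, hx, (hN x j).mpr ⟨hij, hj⟩⟩)
        · left
          exact Finset.mem_union_left _ (Finset.mem_sdiff.mpr ⟨hi, hiA⟩)
      intro i j hij
      rcases hC i j hij with hi | hj
      · exact h1 i j hij hi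
      · exact (h1 j i hij.symm hj).symm
    have h2 := hmin _ hcov
    have h3 := Finset.card_union_le (C \ A') (A.biUnion N)
    have h4 := Finset.card_sdiff_add_card_eq_card hA'C
    omega
  obtain ⟨f, hf1, hf2⟩ := (Finset.all_card_le_biUnion_card_iff_exists_injective N).mp hall
  exact ⟨f, hf1, fun x => (hN _ _).mp (hf2 x)⟩

/-- In a bipartite graph, a minimum vertex cover can be matched out of itself. -/
theorem koenig (F : SimpleGraph (Fin k)) (S : Fin k → Prop)
    (hS : ∀ i j, F.Adj i j → (S i ↔ ¬ S j)) :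
    ∃ (C : Finset (Fin k)) (μ : Fin k → Fin k),
      (∀ i j, F.Adj i j → i ∈ C ∨ j ∈ C) ∧
      (∀ i ∈ C, F.Adj i (μ i) ∧ μ i ∉ C) ∧ (∀ i ∈ C, ∀ j ∈ C, μ i = μ j → i = j) := by
  classical
  obtain ⟨C, hC, hmin⟩ := Finset.exists_min_image
    (Finset.univ.filter (fun D : Finset (Fin k) => ∀ i j, F.Adj i j → i ∈ D ∨ j ∈ D))
    Finset.card ⟨Finset.univ, by simp⟩
  have hC' := (Finset.mem_filter.mp hC).2
  have hmin' : ∀ D : Finset (Fin k), (∀ i j, F.Adj i j → i ∈ D ∨ j ∈ D) → C.card ≤ D.card :=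
    fun D hD => hmin D (Finset.mem_filter.mpr ⟨Finset.mem_univ _, hD⟩)
  obtain ⟨f, hf1, hf2⟩ := side F S (fun i j h h1 => (hS i j h).mp h1) C hC' hmin'
  obtain ⟨g, hg1, hg2⟩ := side F (fun i => ¬ S i) (fun i j h h1 => by
    have := hS i j h
    tauto) C hC' hmin'
  let μ : Fin k → Fin k := fun i =>
    if h : i ∈ C ∧ S i then f ⟨i, h⟩ else if h : i ∈ C ∧ ¬ S i then g ⟨i, h⟩ else i
  have hμ1 : ∀ i (h : i ∈ C ∧ S i), μ i = f ⟨i, h⟩ := by
    intro i h
    simp only [μ]
    rw [dif_pos h]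
  have hμ2 : ∀ i (h : i ∈ C ∧ ¬ S i), μ i = g ⟨i, h⟩ := by
    intro i h
    have h' : ¬ (i ∈ C ∧ S i) := fun h' => h.2 h'.2
    simp only [μ]
    rw [dif_neg h', dif_pos h]
  refine ⟨C, μ, hC', ?_, ?_⟩
  · intro i hi
    by_cases hs : S i
    · rw [hμ1 i ⟨hi, hs⟩]; exact hf2 ⟨i, hi, hs⟩
    · rw [hμ2 i ⟨hi, hs⟩]; exact hg2 ⟨i, hi, hs⟩
  · intro i hi j hj hij
    by_cases hs : S i <;> by_cases hs' : S j
    · rw [hμ1 i ⟨hi, hs⟩, hμ1 j ⟨hj, hs'⟩] at hij
      exact congrArg Subtype.val (hf1 hij)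
    · rw [hμ1 i ⟨hi, hs⟩, hμ2 j ⟨hj, hs'⟩] at hij
      have h1 := (hS _ _ (hf2 ⟨i, hi, hs⟩).1).mp hs
      have h2 := (hS _ _ (hg2 ⟨j, hj, hs'⟩).1)
      rw [hij] at h1
      tauto
    · rw [hμ2 i ⟨hi, hs⟩, hμ1 j ⟨hj, hs'⟩] at hij
      have h1 := (hS _ _ (hf2 ⟨j, hj, hs'⟩).1).mp hs'
      have h2 := (hS _ _ (hg2 ⟨i, hi, hs⟩).1)
      rw [← hij] at h1
      tauto
    · rw [hμ2 i ⟨hi, hs⟩, hμ2 j ⟨hj, hs'⟩] at hij
      exact congrArg Subtype.val (hg1 hij)

theorem closed (G : SimpleGraph V) (A W : Set V) (hA : ∀ u ∈ A, ∀ v ∈ W, G.Adj u v → v ∈ A) :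
    ∀ (x y : V) (p : G.Walk x y), (∀ v ∈ p.support, v ∈ W) → x ∈ A → y ∈ A := by
  intro x y p
  induction p with
  | nil => intro _ h; exact h
  | cons h p ih =>
    intro hW hx
    refine ih (fun v hv => hW v ?_) (hA _ hx _ (hW _ ?_) h)
    · rw [Walk.support_cons]; exact List.mem_cons_of_mem _ hv
    · rw [Walk.support_cons]; exact List.mem_cons_of_mem _ p.start_mem_support

theorem eq_pair (c : V → Fin k) (i : Fin k) (x y : V) (hx : c x = i) (hy : c y = i) (hxy : x ≠ y)
    (h2 : {v | c v = i}.encard ≤ 2) : ∀ v, c v = i → v = x ∨ v = y := by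
  intro v hv
  by_contra hne
  push Not at hne
  have h3 : ({x, y, v} : Set V) ⊆ {v | c v = i} := by
    rintro w (rfl | rfl | rfl)
    · exact hx
    · exact hy
    · exact hv
  have h4 : ({x, y, v} : Set V).encard = 3 := by
    rw [Set.encard_eq_three]
    exact ⟨x, y, v, hxy, hne.1.symm, hne.2.symm, rfl⟩
  have h5 := (Set.encard_le_encard h3).trans h2
  rw [h4] at h5
  exact absurd h5 (by decide)

/-- With classes of size at most two, no transversal vertex separates. -/
theorem small (G : SimpleGraph V) (c : V → Fin k) (t : Fin k → V)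
    (hc : ∀ u v, G.Adj u v → c u ≠ c v) (ht : ∀ i, c (t i) = i) (i j : Fin k) (hij : i ≠ j)
    (hna : ¬ G.Adj (t i) (t j)) (hK : (G.induce {v | c v = i ∨ c v = j}).Connected)
    (h1 : {v | c v = i}.encard ≤ 2) (h2 : {v | c v = j}.encard ≤ 2) :
    (G.induce {v | (c v = i ∨ c v = j) ∧ v ≠ t j}).Connected := by
  have hK' : (G.induce {v | c v = j ∨ c v = i}).Connected := by
    have : {v | c v = j ∨ c v = i} = {v | c v = i ∨ c v = j} := by
      ext v; exact or_comm
    rw [this]; exact hK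
  obtain ⟨w, hw, hjw⟩ := nbr G c t hc ht i j hij hK
  obtain ⟨w', hw', hiw'⟩ := nbr G c t hc ht j i hij.symm hK'
  have hwi : t i ≠ w := by
    rintro h
    rw [← h] at hjw
    exact hna hjw.symm
  have hwj : t j ≠ w' := by
    rintro h
    rw [← h] at hiw'
    exact hna hiw'
  have hXi := eq_pair c i (t i) w (ht i) hw hwi h1
  have hXj := eq_pair c j (t j) w' (ht j) hw' hwj h2
  have hww : G.Adj w w' := by
    by_contra hnw
    obtain ⟨p, hp⟩ := walk_of_conn G hK (x := t j) (y := t i) (Or.inr (ht j)) (Or.inl (ht i))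
    have h3 := closed G {t j, w} {v | c v = i ∨ c v = j} (by
      rintro u (rfl | rfl) v hv hadj
      · rcases hv with hv | hv
        · rcases hXi v hv with rfl | rfl
          · exact absurd hadj.symm hna
          · exact Or.inr rfl
        · exact absurd ((ht j).trans hv.symm) (hc _ _ hadj)
      · rcases hv with hv | hv
        · exact absurd (hw.trans hv.symm) (hc _ _ hadj)
        · rcases hXj v hv with rfl | rfl
          · exact Or.inl rfl
          · exact absurd hadj hnw) _ _ p hp (Or.inl rfl)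
    rcases h3 with h3 | h3
    · exact hij (by rw [← ht i, h3, ht j])
    · exact hwi h3
  have h4 := adj_union_conn G (S := {t i}) (T := {w'}) rfl rfl hiw' (singleton_conn G _)
    (singleton_conn G _)
  have h5 := adj_union_conn G (S := {t i} ∪ {w'}) (T := {w}) (Or.inr rfl) rfl hww.symm h4
    (singleton_conn G _)
  have h6 : {v | (c v = i ∨ c v = j) ∧ v ≠ t j} = ({t i} ∪ {w'}) ∪ {w} := by
    ext v
    constructor
    · rintro ⟨hv | hv, hvj⟩
      · rcases hXi v hv with rfl | rfl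
        · exact Or.inl (Or.inl rfl)
        · exact Or.inr rfl
      · rcases hXj v hv with rfl | rfl
        · exact absurd rfl hvj
        · exact Or.inl (Or.inr rfl)
    · rintro ((rfl | rfl) | rfl)
      · refine ⟨Or.inl (ht i), ?_⟩
        intro h
        exact hij (by rw [← ht i, h, ht j])
      · exact ⟨Or.inr hw', hwj.symm⟩
      · refine ⟨Or.inl hw, ?_⟩
        intro h
        exact hij (by rw [← hw, h, ht j])
  rw [h6]; exact h5

end Pool.Agent.Helper479Crown
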